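import Pool.Agent.helper55.FLD.FIN
import Pool.Agent.helper76.FLD.AD
import Pool.Agent.helper64.FLD.AL
import Pool.Agent.helper97.FLD.BD
import Pool.Agent.helper63.FLD.CA
import Pool.Agent.helper19.FLD.CB
import Pool.Agent.helper6.FLD.ID
import Pool.Agent.helper34.FLD.IR
import Pool.Agent.helper71.FLD.LA
import Pool.Agent.helper4.FLD.LG
import Pool.Agent.helper84.FLD.NZ
import Pool.Agent.helper45.FLD.OG
import Pool.Agent.helper23.FLD.RE
import Pool.Agent.helper15.FLD.RT
import Pool.Agent.helper30.FLD.SP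
import Pool.Agent.helper18.FLD.TA
import Pool.Agent.helper37.FLD.TL
import Pool.Agent.helper31.FLD.TP

/-!
# FLD: the linear disjointness criterion, proved
-/

namespace Pool.Agent.FLD

/-- The dichotomy `FIN_stmt`: all rows put together. -/
theorem ALL : FIN_stmt := by
  have hTA : TA_stmt := TA
  have hLG : LG_stmt := LG hTA
  have hRT : RT_stmt := RT hTA
  have hRE : RE_stmt := RE hLG hRT
  have hTP : TP_stmt := TP
  have hAD : AD_stmt := AD hTA
  have hTL : TL_stmt := TL
  have hSP : SP_stmt := SP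
  exact FIN LA OG hTP ID AL IR hTL (CA hTL hSP) (CB hLG hRE hTP hAD BD hTL hSP)
    (NZ hLG hAD hTL hTP)

end Pool.Agent.FLD
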