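import Pool.Agent.helper55.FLD.Basic
import Pool.Agent.helper85.AR.Ad

/-!
# FLD: the linear disjointness criterion (MP_2e0e07_nt), rows

Theorem (FIN). `Γ` compact group, `V : Γ → GL_n(ℚ_p)`, `ρ : Γ → GL_2(F)` continuous, `F / ℚ_p`
finite, `ρ` strongly irreducible. Then either the coefficients of `ad⁰ ρ` on some open subgroup `U`
are in the algebra generated by the coefficients of `V` (so `ad⁰ ρ` is a subquotient of a tensor
construction of `V`), or the image of `ker V` under `ad ρ` is open in that of `Γ`.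

Plan. `B = M_n(ℚ_p) × M_2(F)`, `R` the integral elements, `G` a small open subgroup, `Φ = (V, ρ)`.
`TT` = Lie algebra (lattice). `T₀` = its elements with `V`-component `0`; `b` = `ℚ_p`-span of
the traceless parts of the `ρ`-components of `TT`, `n` = the same for `T₀`. By ALG `n = 0` or
`n = b`. If `n = 0`, the traceless part of the `ρ`-component is a function of the `V`-component (CA).
If `n = b`, elements of `ker V` have all possible small `ad ρ` (CB).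

Rules: prove `theorem X : X_stmt` (or `theorem X (h1 : Y_stmt) .. : X_stmt` with only the rows named
in the docstring) in `Pool/Agent/<you>/FLD/X.lean`, importing `Pool.Agent.helper55.FLD.Spec`,
namespace `Pool.Agent.FLD`, auxiliary lemmas prefixed with `X_`. `Defs.lean` has the calculus of `Dv`
(`x ∈ p ^ k R`): `Dv.add`, `Dv.sub`, `Dv.mul`, `Dv.mono`, `Dv.smul`, `Dv.of_smul`, `dv_smul_iff`,
`Dv.mul_left`, `Dv.mul_right`, `Dv.mul_one_sub`, `Dv.pow_sub_one`, `Dv.inv_sub_one`;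
`Basic.lean`: `Lat.isClosed_dv`, `Lat.isOpen_dv`, `Lat.isCompact_dv`, `Lat.mem_of_approx`.
No double quotes, no convert / congr!, no native_decide.
-/

namespace Pool.Agent.FLD

open Matrix Topology Filter Pool.Agent.GO Pool.Agent.AR

/-- **Row TA** (powers; pure algebra, from `Defs` only). Proof. (1) By induction on `n`:
`x^(n+1) - y^(n+1) - (n+1)(x-y) = (x^n - 1)(x - y) + (x^n - y^n - n (x - y)) y + n (x - y)(y - 1)`
and `Dv j (x^n - 1)` (`Dv.pow_sub_one`), `Dv j (y - 1)`. (2) By induction on `i` it is enough to treat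
`i = 1` (with `x^(p^i)`, `y^(p^i)` in place of `x`, `y`; `pow_succ`, `pow_mul`). Direction from left to
right: (1) with `n = p`, `j = 2`. From right to left: induction on `k`; `k = 0` is
`mem_of_dv_sub_one`; if `Dv (k+2) (x^p - y^p)` then by induction `Dv k (x - y)`, by (1)
`Dv (k+2) (x^p - y^p - p (x - y))`, so `Dv (k+2) (p (x - y))` and `Dv (k+1) (x - y)` (`Dv.of_smul`).
(3) (1) with `y = 1`, `x ^ (p ^ i)` in place of `x`, `j = k = i + 2` (by (2)), `n = p`. -/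
def TA_stmt : Prop := ∀ (p : ℕ) [Fact p.Prime] (B : Type) [Ring B] [Algebra ℚ_[p] B]
  (R : Subring B),
  (∀ (j k : ℕ) (x y : B), Dv p R j (x - 1) → Dv p R j (y - 1) → Dv p R k (x - y) → ∀ n : ℕ,
    Dv p R (k + j) (x ^ n - y ^ n - n • (x - y))) ∧
  (∀ (i k : ℕ) (x y : B), Dv p R 2 (x - 1) → Dv p R 2 (y - 1) →
    (Dv p R k (x - y) ↔ Dv p R (k + i) (x ^ p ^ i - y ^ p ^ i))) ∧
  (∀ (i : ℕ) (x : B), Dv p R 2 (x - 1) →
    Dv p R (2 * i + 4) (x ^ p ^ (i + 1) - 1 - (p : ℚ_[p]) • (x ^ p ^ i - 1)))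

/-- **Row LG** (logarithms; from TA). Proof. (1) By TA (3), `x^(p^(i+1)) - 1 - p^(i+1) Z ≡
p (x^(p^i) - 1 - p^i Z)` modulo `p^(2i+4)`; divide by `p`. (2) The sets
`C i = {Z | Dv (2 i + 3) (x^(p^i) - 1 - p^i Z)} ∩ R` are closed subsets of the compact set `R`
(`Lat.isClosed_dv`), decreasing by (1), and nonempty: by TA (2) `Dv (i + 2) (x^(p^i) - 1)`, that is
`x^(p^i) - 1 = p^(i+2) r`, take `Z = p² r`. (`IsCompact.nonempty_iInter_of_sequence_nonempty_isCompact_isClosed`.)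
(3) `Dv (2 i + 3) (x^(p^i) - y^(p^i))` for all `i`, so `Dv (i + 3) (x - y)` by TA (2); `sep`.
(4) `(x ^ p ^ k) ^ p ^ i = x ^ p ^ (k + i)`, and `2 (k + i) + 3 ≥ 2 i + 3`. (5) `i = 0`: `Dv 3 (x - 1 - Z)`. -/
def LG_stmt : Prop := ∀ (p : ℕ) [Fact p.Prime] (B : Type) [Ring B] [Algebra ℚ_[p] B]
  [TopologicalSpace B] [IsTopologicalRing B] [ContinuousSMul ℚ_[p] B] [T2Space B]
  (R : Subring B), Lat p R →
  (∀ (i : ℕ) (x Z : B), Dv p R 2 (x - 1) →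
    Dv p R (2 * (i + 1) + 3) (x ^ p ^ (i + 1) - 1 - ((p : ℚ_[p]) ^ (i + 1)) • Z) →
    Dv p R (2 * i + 3) (x ^ p ^ i - 1 - ((p : ℚ_[p]) ^ i) • Z)) ∧
  (∀ x : B, Dv p R 2 (x - 1) → ∃ Z ∈ R, IsLog p R x Z) ∧
  (∀ x y Z : B, Dv p R 2 (x - 1) → Dv p R 2 (y - 1) → IsLog p R x Z → IsLog p R y Z → x = y) ∧
  (∀ (k : ℕ) (x Z : B), IsLog p R x Z → IsLog p R (x ^ p ^ k) (((p : ℚ_[p]) ^ k) • Z)) ∧
  (∀ x Z : B, Dv p R 2 (x - 1) → IsLog p R x Z → Dv p R 2 Z)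

/-- **Row RT** (roots; from TA). `G` is a compact group, `Φ` is continuous with values in
`1 + p² R`. Proof. Let `S j ⊆ R / p R` (use the quotient of the additive group `R` by
`{x | Dv 1 x}`, finite since `R` is compact and `{x | Dv 1 x}` is open; or a finite set of
representatives) be the set of classes of the `w ∈ R` such that `Φ g = 1 + p^j w` for some `g`. TA
(1) with `y = 1`, `k = j`, `n = p` gives `Φ (g^p) ≡ 1 + p^(j+1) w` modulo `p^(j+2)`, so `S j ⊆ S (j+1)` for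
`j ≥ 2`; a monotone sequence of subsets of a finite set is constant from some `j₀ ≥ 2` on. CLAIM: for
`j ≥ j₀`, `g` with `Dv (j+1) (Φ g - 1)` and all `k ≥ j + 2` there is `h` with `Dv j (Φ h - 1)` and
`Dv k (Φ h ^ p - Φ g)`. Induction on `k`. `k = j + 2`: `Φ g = 1 + p^(j+1) w`, the class of `w` is in
`S (j+1) = S j`, so there is `h`, `Φ h = 1 + p^j w'`, `Dv 1 (w - w')`, and `Φ h ^ p ≡ 1 + p^(j+1) w'`
modulo `p^(2j+1)` (so modulo `p^(j+2)`). Step: given `h` with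
`Dv k (Φ h ^ p - Φ g)` let `e = (h^p)⁻¹ g`, `Φ e = 1 + p^k w`; as `S k = S (k-1)` there is `t` with
`Φ t = 1 + p^(k-1) w'`, `Dv 1 (w - w')`. With `x = Φ (h t)`, `y = Φ h`: `x - y = y p^(k-1) w'`, so by
TA (1) (`j = 2`, `k - 1` for `k`, `n = p`) `x^p ≡ y^p + p^k y w' ≡ y^p + p^k w'` modulo `p^(k+1)`, and
`Φ g = y^p (1 + p^k w) ≡ y^p + p^k w` modulo `p^(k+1)`. CONCLUSION: the sets `{h | Dv j (Φ h - 1) ∧
Dv k (Φ h ^ p - Φ g)}` are closed, decreasing in `k`, nonempty: there is `h` with `Φ h ^ p = Φ g`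
(`sep`). Then iterate: `Dv (j₀ + i) (Φ g - 1)`; `Φ g = Φ g₁ ^ p`, `Dv (j₀ + i - 1) (Φ g₁ - 1)`, and so on. -/
def RT_stmt : Prop := ∀ (p : ℕ) [Fact p.Prime] (B : Type) [Ring B] [Algebra ℚ_[p] B]
  [TopologicalSpace B] [IsTopologicalRing B] [ContinuousSMul ℚ_[p] B] [T2Space B]
  (R : Subring B), Lat p R → ∀ (G : Type) [Group G] [TopologicalSpace G] [IsTopologicalGroup G]
  [CompactSpace G] (Φ : G →* B), Continuous Φ → (∀ g, Dv p R 2 (Φ g - 1)) →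
  ∃ j₀ : ℕ, 2 ≤ j₀ ∧ ∀ (i : ℕ) (g : G), Dv p R (j₀ + i) (Φ g - 1) →
    ∃ h : G, Dv p R j₀ (Φ h - 1) ∧ (Φ h) ^ p ^ i = Φ g

/-- **Row RE** (realisation; from LG and RT). Proof. `j₀` from RT. (1) Let `Z ∈ TT`. For `l : ℕ` let
`E l = {h | Dv (2 l + 3) ((Φ h)^(p^l) - 1 - p^l (p^(j₀) Z))}`: closed; decreasing by LG (1); nonempty:
with `i = l + j₀` take `g` with `Dv (2 i) (Φ g - 1 - p^i Z)`; then `Dv i (Φ g - 1)`, RT gives `h` with
`(Φ h)^(p^l) = Φ g` and `2 i ≥ 2 l + 3` as `j₀ ≥ 2`. An element of all `E l` is as required.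
(2) If `Dv (j₀ + i) (Φ g - 1)` take `h` from RT, `Z` = a logarithm of `Φ h` (LG (2)); `Z ∈ TT` (for
`i ≥ 2` the element `h^(p^i)`), LG (4). -/
def RE_stmt : Prop := ∀ (p : ℕ) [Fact p.Prime] (B : Type) [Ring B] [Algebra ℚ_[p] B]
  [TopologicalSpace B] [IsTopologicalRing B] [ContinuousSMul ℚ_[p] B] [T2Space B]
  (R : Subring B), Lat p R → ∀ (G : Type) [Group G] [TopologicalSpace G] [IsTopologicalGroup G]
  [CompactSpace G] (Φ : G →* B), Continuous Φ → (∀ g, Dv p R 2 (Φ g - 1)) →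
  ∃ j₀ : ℕ, 2 ≤ j₀ ∧
    (∀ Z ∈ TT p R Φ, ∃ h : G, IsLog p R (Φ h) (((p : ℚ_[p]) ^ j₀) • Z)) ∧
    (∀ (i : ℕ) (g : G), Dv p R (j₀ + i) (Φ g - 1) →
      ∃ Z ∈ TT p R Φ, IsLog p R (Φ g) (((p : ℚ_[p]) ^ i) • Z))

/-- **Row TP** (properties of `TT`). Proof. (1) `Φ (g^(p^i))`. (2) `Φ (g g') = Φ g Φ g'` and
`(1 + p^i Z)(1 + p^i Z') ≡ 1 + p^i (Z + Z')` modulo `p^(2i)`. (3) `n • Z ∈ TT` for `n : ℕ` by (2) (`0` by
`g = 1`); for `c` with `‖c‖ ≤ 1` and `i` choose `n : ℕ` with `‖c - n‖ ≤ p^(-i)` (`PadicInt.appr` or density)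
so that `Dv i (c Z - n Z)` for `Z ∈ R` (`(c - n) = p^i u` with `‖u‖ ≤ 1`, and `u • Z ∈ R` for `‖u‖ ≤ 1`:
the field `hZ`). (4) conjugate `g`; `Φ h Z Φ h⁻¹ ∈ R`. (5) `TT` is an intersection of sets
`{Z | Z ∈ R ∧ ∃ g, Dv (2 i) (Φ g - 1 - p^i Z)}`, each is closed: if `Dv i (Z - Z')` and `Z'` is in it, so
is `Z`, thus it is open and its complement in `R` is open as well (`Lat.isOpen_dv`). (6) If `Z ∈ TT`
then for each `i ≥ 2` some `g` with `Dv i (Φ g - 1)`; not needed. -/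
def TP_stmt : Prop := ∀ (p : ℕ) [Fact p.Prime] (B : Type) [Ring B] [Algebra ℚ_[p] B]
  [TopologicalSpace B] [IsTopologicalRing B] [ContinuousSMul ℚ_[p] B] [T2Space B]
  (R : Subring B), Lat p R → (∀ (c : ℚ_[p]), ‖c‖ ≤ 1 → ∀ x ∈ R, c • x ∈ R) →
  ∀ (G : Type) [Group G] (Φ : G →* B), (∀ g, Dv p R 2 (Φ g - 1)) →
  (∀ (g : G) (Z : B), Z ∈ R → IsLog p R (Φ g) Z → Z ∈ TT p R Φ) ∧
  (∀ Z ∈ TT p R Φ, ∀ Z' ∈ TT p R Φ, Z + Z' ∈ TT p R Φ) ∧
  (∀ c : ℚ_[p], ‖c‖ ≤ 1 → ∀ Z ∈ TT p R Φ, c • Z ∈ TT p R Φ) ∧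
  (∀ g : G, ∀ Z ∈ TT p R Φ, Φ g * Z * Φ g⁻¹ ∈ TT p R Φ) ∧
  IsCompact (TT p R Φ)

/-- **Row AD** (two elements whose logarithms differ by a central element act in the same way by
conjugation; from TA). Proof. Let `E = Module.End ℚ_[p] B` (`B →ₗ[ℚ_[p]] B`, a `ℚ_p`-algebra) and
`R' = {f | ∀ r ∈ R, f r ∈ R}`, a subring. `a = (b ↦ x b x')`, `a' = (b ↦ y b y')`. `Dv R' 2 (a - 1)`:
`x b x' - b = ((x - 1) b + b (1 - x)) x'`... For `b ∈ R`, `a^(p^i) b = x^(p^i) b x'^(p^i)`; since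
`x^(p^i) = 1 + p^i X + p^(2i+3) e` and `x'^(p^i)` is its inverse, `x^(p^i) b x'^(p^i) - b = [x^(p^i), b] x'^(p^i)
≡ p^i [X, b]` modulo `p^(2i)` (`Dv i (x'^(p^i) - 1)`), similarly for `y`, and `[X, b] = [Y, b]`. So
`Dv R' (2 i) (a^(p^i) - a'^(p^i))` (an `f ∈ E` which maps `R` into `p^k R` is in `p^k R'`), TA (2) for `E`,
`R'`: `Dv R' i (a - a')` for all `i`, so `a r = a' r` for `r ∈ R` (`sep`) and then for all `b` (`abs`). -/
def AD_stmt : Prop := ∀ (p : ℕ) [Fact p.Prime] (B : Type) [Ring B] [Algebra ℚ_[p] B]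
  (R : Subring B), (∀ x : B, (∀ k : ℕ, Dv p R k x) → x = 0) →
  (∀ x : B, ∃ k : ℕ, ((p : ℚ_[p]) ^ k) • x ∈ R) →
  ∀ x x' y y' X Y : B, x * x' = 1 → x' * x = 1 → y * y' = 1 → y' * y = 1 →
    Dv p R 2 (x - 1) → Dv p R 2 (x' - 1) → Dv p R 2 (y - 1) → Dv p R 2 (y' - 1) →
    X ∈ R → Y ∈ R → IsLog p R x X → IsLog p R y Y → (∀ b : B, (X - Y) * b = b * (X - Y)) →
    ∀ b : B, x * b * x' = y * b * y'

/-- **Row ID** (subspaces stable under conjugation are ideals). Proof. Let `Z ∈ TT`, `W ∈ S`; by `abs` we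
may assume `W ∈ R`. For `i ≥ 2` let `Φ g = 1 + p^i Z + p^(2i) e`, `e ∈ R`. Then
`s = p^(-i) (Φ g W Φ g⁻¹ - W) ∈ S` and `Φ g W Φ g⁻¹ - W = (Φ g W - W Φ g) Φ g⁻¹`, so
`s = ([Z, W] + p^i [e, W]) Φ g⁻¹`, `Dv i (Φ g⁻¹ - 1)` (`Dv.inv_sub_one`), thus `Dv i ([Z, W] - s)`. `S` is
closed (finite dimension), `Lat.mem_of_approx`. -/
def ID_stmt : Prop := ∀ (p : ℕ) [Fact p.Prime] (B : Type) [Ring B] [Algebra ℚ_[p] B]
  [TopologicalSpace B] [IsTopologicalRing B] [ContinuousSMul ℚ_[p] B] [T2Space B]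
  [FiniteDimensional ℚ_[p] B] (R : Subring B), Lat p R → ∀ (G : Type) [Group G] (Φ : G →* B),
  (∀ g, Dv p R 2 (Φ g - 1)) → ∀ S : Submodule ℚ_[p] B,
  (∀ g : G, ∀ W ∈ S, Φ g * W * Φ g⁻¹ ∈ S) → ∀ Z ∈ TT p R Φ, ∀ W ∈ S, Z * W - W * Z ∈ S

/-- **Row BD** (bounded index). Proof. Choose `e_1, ..., e_r ∈ T₀` which form a basis of the span of
`T₀` (finite dimension). The coordinates of the points of the compact set `T` are bounded (they are
continuous functions on the span, which is a finite-dimensional Hausdorff space), say by `p^k`. For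
`x ∈ T`, `p^k x = sum of c_i e_i` with `‖c_i‖ ≤ 1` is in `T₀`. -/
def BD_stmt : Prop := ∀ (p : ℕ) [Fact p.Prime] (E : Type) [AddCommGroup E] [Module ℚ_[p] E]
  [TopologicalSpace E] [IsTopologicalAddGroup E] [ContinuousSMul ℚ_[p] E] [T2Space E]
  [FiniteDimensional ℚ_[p] E] (T T₀ : Set E), IsCompact T → (0 : E) ∈ T₀ →
  (∀ x ∈ T₀, ∀ y ∈ T₀, x + y ∈ T₀) → (∀ c : ℚ_[p], ‖c‖ ≤ 1 → ∀ x ∈ T₀, c • x ∈ T₀) →
  T ⊆ Submodule.span ℚ_[p] T₀ → ∃ k : ℕ, ∀ x ∈ T, ((p : ℚ_[p]) ^ k) • x ∈ T₀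

/-- **Row AL** (a Lie algebra argument; pure algebra over any fields `k ⊆ F`). Proof. The `k`-subspaces
`S ≤ b` which are stable under conjugation by all `ρ g` are called stable; `n` is one, nonzero. Let
`m ≤ n` be a nonzero stable subspace of minimal dimension. The `F`-span of `m` is stable and nonzero,
so by `irr` it contains all matrices of trace `0`. There are `x₀, y₀ ∈ m` with `trace (x₀ y₀) ≠ 0`:
otherwise `trace (x y) = 0` for all `x, y` in the `F`-span, but `trace (h h) = 2` for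
`h = diag (1, -1)`. Let `f : F → k` be `k`-linear with `f (trace (x₀ y₀)) ≠ 0`
(`Module.forall_dual_apply_eq_zero_iff`), `β x y = f (trace (x y))`: symmetric, invariant under
conjugation. `rad = {x ∈ m | ∀ y ∈ m, β x y = 0}` is stable and not `m`, so it is `0`. Let
`q = {x ∈ b | ∀ y ∈ m, β x y = 0}`, stable. `m ∩ q = rad = 0` and `b = m + q`: the map `m → Dual k m`,
`x ↦ β x ·` is injective, so bijective; for `x ∈ b` there is `x' ∈ m` with `β x · = β x' ·` on `m`. For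
`Y ∈ q`, `W ∈ m`: `Y W - W Y` is in `m` and in `q` by the ideal hypothesis (with `S = m` resp. `S = q`), so it is
`0`. So `Y` commutes with the `F`-span of `m`, i.e. with all matrices of trace `0`; as it has trace `0`
it is `0` (characteristic `≠ 2`). So `q = 0`, `b = m ≤ n`. -/
def AL_stmt : Prop := ∀ (k F : Type) [Field k] [Field F] [CharZero F] [Algebra k F]
  (G : Type) [Group G] (ρ : G →* Matrix (Fin 2) (Fin 2) F)
  (b n : Submodule k (Matrix (Fin 2) (Fin 2) F)) [FiniteDimensional k b],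
  (∀ Y ∈ b, Y.trace = 0) → n ≤ b → n ≠ ⊥ →
  (∀ g, ∀ Y ∈ b, ρ g * Y * ρ g⁻¹ ∈ b) → (∀ g, ∀ Y ∈ n, ρ g * Y * ρ g⁻¹ ∈ n) →
  (∀ S : Submodule k (Matrix (Fin 2) (Fin 2) F), S ≤ b →
    (∀ g, ∀ Y ∈ S, ρ g * Y * ρ g⁻¹ ∈ S) → ∀ Y ∈ b, ∀ W ∈ S, Y * W - W * Y ∈ S) →
  (∀ N : Submodule F (Matrix (Fin 2) (Fin 2) F), N ≠ ⊥ → (∀ Y ∈ N, Y.trace = 0) →
    (∀ g, ∀ Y ∈ N, ρ g * Y * ρ g⁻¹ ∈ N) → ∀ Y : Matrix (Fin 2) (Fin 2) F, Y.trace = 0 → Y ∈ N) →
  n = b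

/-- **Row IR** (irreducibility of `ad⁰` over the small field). Let `ρ` have values in `GL_2(F)` and be
strongly irreducible over the algebraically closed field `Ω ⊇ F`. Proof. `H` of finite index. Let
`ρ' = (algebraMap F Ω).mapMatrix ∘ ρ`. By `AR.ad0_irred` and `SI.restrict` the representation
`ad0 (ρ'.comp H.subtype)` on `Ω³` is irreducible. Let `N` be as in the statement, `N' ⊆ Ω³` the
`Ω`-span of the vectors `co (Y.map (algebraMap F Ω))`, `Y ∈ N` (`co`, `em`, `em_co`, `em_ad0` of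
`Pool.Agent.AR`): it is stable and nonzero, so it is everything. If `N` were not everything there
would be a nonzero linear form `(a_1, a_2, a_3) ∈ F³` vanishing on `co Y`, `Y ∈ N`
(`Submodule.exists_le_ker_of_lt_top`), and then the same form vanishes on `N' = Ω³`. -/
def IR_stmt : Prop := ∀ (F Ω : Type) [Field F] [CharZero F] [Field Ω] [IsAlgClosed Ω]
  [Algebra F Ω] (G : Type) [Group G] (ρ : G →* Matrix (Fin 2) (Fin 2) F),
  SI (((algebraMap F Ω).mapMatrix : Matrix (Fin 2) (Fin 2) F →+* _).toMonoidHom.comp ρ) →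
  ∀ H : Subgroup G, H.FiniteIndex → ∀ N : Submodule F (Matrix (Fin 2) (Fin 2) F), N ≠ ⊥ →
    (∀ Y ∈ N, Y.trace = 0) → (∀ g ∈ H, ∀ Y ∈ N, ρ g * Y * ρ g⁻¹ ∈ N) →
    ∀ Y : Matrix (Fin 2) (Fin 2) F, Y.trace = 0 → Y ∈ N

/-- The integral elements of `M_n(ℚ_p) × M_2(F)`. -/
def Integral (p : ℕ) [Fact p.Prime] {n : Type} {F : Type} [NormedField F]
    (x : Matrix n n ℚ_[p] × Matrix (Fin 2) (Fin 2) F) : Prop :=
  (∀ i j, ‖x.1 i j‖ ≤ 1) ∧ ∀ i j, ‖x.2 i j‖ ≤ 1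

/-- **Row LA** (the lattice). Proof. `F` is ultrametric: `‖(m : F)‖ = ‖(m : ℚ_[p])‖ ≤ 1` for `m : ℕ`
(`norm_algebraMap'`), `IsUltrametricDist.isUltrametricDist_of_forall_norm_natCast_le_one`. So the
integral elements form a subring `R`. `F` is a proper space (`FiniteDimensional.proper ℚ_[p] F`), so the
closed unit ball is compact, `R` is a product of compact sets (`isCompact_univ_pi` or a closed subset..);
it is open as the closed unit balls are open (`IsUltrametricDist.isOpen_closedBall`).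
`Dv k x ↔` all entries have norm `≤ p^(-k)`; `sep`, `abs` follow. -/
def LA_stmt : Prop := ∀ (p : ℕ) [Fact p.Prime] (n F : Type) [Fintype n] [DecidableEq n]
  [NormedField F] [NormedAlgebra ℚ_[p] F] [FiniteDimensional ℚ_[p] F],
  ∃ R : Subring (Matrix n n ℚ_[p] × Matrix (Fin 2) (Fin 2) F),
    (∀ x, x ∈ R ↔ Integral p x) ∧ Lat p R ∧
    (∀ (c : ℚ_[p]), ‖c‖ ≤ 1 → ∀ x ∈ R, c • x ∈ R)

/-- **Row OG** (a small open subgroup). Proof. `U = {g | Dv 2 (Φ g - 1) ∧ Dv 2 (Φ g⁻¹ - 1)}` is a subgroup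
(`Dv.mul_one_sub`) and open (`Lat.isOpen_dv`). -/
def OG_stmt : Prop := ∀ (p : ℕ) [Fact p.Prime] (B : Type) [Ring B] [Algebra ℚ_[p] B]
  [TopologicalSpace B] [IsTopologicalRing B] [ContinuousSMul ℚ_[p] B] [T2Space B]
  (R : Subring B), Lat p R → ∀ (G : Type) [Group G] [TopologicalSpace G] [IsTopologicalGroup G]
  (Φ : G →* B), Continuous Φ → ∀ k : ℕ, ∃ U : Subgroup G, IsOpen (U : Set G) ∧
    ∀ g ∈ U, Dv p R k (Φ g - 1)

/-- the traceless part -/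
def tl {F : Type} [Field F] (Y : Matrix (Fin 2) (Fin 2) F) : Matrix (Fin 2) (Fin 2) F :=
  Y - (Y.trace / 2) • 1

/-- **Row TL** (traceless parts). Pure algebra. -/
def TL_stmt : Prop := ∀ (F : Type) [Field F] [CharZero F],
  (∀ Y : Matrix (Fin 2) (Fin 2) F, (tl Y).trace = 0) ∧
  (∀ Y : Matrix (Fin 2) (Fin 2) F, Y.trace = 0 → tl Y = Y) ∧
  (∀ Y Y' : Matrix (Fin 2) (Fin 2) F, tl (Y + Y') = tl Y + tl Y') ∧
  (∀ (c : F) (Y : Matrix (Fin 2) (Fin 2) F), tl (c • Y) = c • tl Y) ∧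
  (∀ (G : Type) [Group G] (ρ : G →* Matrix (Fin 2) (Fin 2) F) (g : G)
    (Y : Matrix (Fin 2) (Fin 2) F), tl (ρ g * Y * ρ g⁻¹) = ρ g * tl Y * ρ g⁻¹) ∧
  (∀ Y W : Matrix (Fin 2) (Fin 2) F, Y * W - W * Y = tl Y * W - W * tl Y) ∧
  (∀ Y Y' : Matrix (Fin 2) (Fin 2) F, tl Y = tl Y' →
    ∀ b : Matrix (Fin 2) (Fin 2) F, (Y - Y') * b = b * (Y - Y')) ∧
  (∀ x x' y y' : Matrix (Fin 2) (Fin 2) F, x * x' = 1 → y * y' = 1 → y' * y = 1 →
    (∀ b : Matrix (Fin 2) (Fin 2) F, x * b * x' = y * b * y') → ∃ c : F, x = c • y)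

/-- **Row SP** (spans). `T` is a set of pairs which is additive and stable under multiplication by the
`c` with `‖c‖ ≤ 1`. Every element of its `ℚ_p`-span is `(p^k)⁻¹ •` an element of `T`. -/
def SP_stmt : Prop := ∀ (p : ℕ) [Fact p.Prime] (E : Type) [AddCommGroup E] [Module ℚ_[p] E]
  (T : Set E), (0 : E) ∈ T → (∀ x ∈ T, ∀ y ∈ T, x + y ∈ T) →
  (∀ c : ℚ_[p], ‖c‖ ≤ 1 → ∀ x ∈ T, c • x ∈ T) →
  ∀ x ∈ Submodule.span ℚ_[p] T, ∃ k : ℕ, ((p : ℚ_[p]) ^ k) • x ∈ T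

/-- **Row CA** (the case `n = 0`; from TL, SP; pure algebra). `T` is a set of pairs `(X, Y)` which is
additive, stable under the `c` with `‖c‖ ≤ 1` and under conjugation by `(V g, ρ g)`, and `X = 0` implies
`tl Y = 0`; the `F`-span of the `tl Y` contains all matrices of trace `0`. Then the coefficients of `ad⁰ ρ`
are in the algebra of `V`, over every extension `Ω` of `F`. Proof. Let `L` = the `ℚ_p`-span of `T`. By SP for
`(X, Y) ∈ L` with `X = 0` also `tl Y = 0`. So there is a `ℚ_p`-linear map `ψ : M_n(ℚ_p) → M_2(F)` with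
`ψ X = tl Y` for all `(X, Y) ∈ L` (the map `L → M_2(F)`, `(X, Y) ↦ tl Y` vanishes on the kernel of the first
projection of `L`; extend from the range of the projection, `LinearMap.exists_extend`). Let
`Ψ : M_n(Ω) → M_2(Ω)` be the `Ω`-linear map `M ↦ sum over a, b of M a b • ψ(E_ab)`. For
`(X, Y) ∈ T`: `Ψ(X) = tl Y` (coefficients mapped to `Ω`) and `Ψ (V g X V g⁻¹) = ρ g (tl Y) ρ g⁻¹`. Every
`em e_j ∈ M_2(Ω)` (trace `0`; it comes from `M_2(F)`) is a finite sum of `c_l tl Y_l` with `c_l ∈ F`,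
`(X_l, Y_l) ∈ T`; so `ρ g (em e_j) ρ g⁻¹ = Ψ (V g M_j V g⁻¹)` with `M_j = sum of c_l X_l`, and the
entry `ad0 g i j = co (..) i` is a linear combination of the functions
`g ↦ V g a b * V g⁻¹ c d`, which are in `alg` (`coef_mem`, `coefInv_mem`, `Subalgebra.mul_mem`). -/
def CA_stmt : Prop := ∀ (p : ℕ) [Fact p.Prime] (n F Ω : Type) [Fintype n] [DecidableEq n]
  [NormedField F] [NormedAlgebra ℚ_[p] F] [Field Ω] [Algebra F Ω] [CharZero Ω] (G : Type) [Group G]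
  (V : G →* Matrix n n ℚ_[p]) (ρ : G →* Matrix (Fin 2) (Fin 2) F)
  (T : Set (Matrix n n ℚ_[p] × Matrix (Fin 2) (Fin 2) F)),
  (0, 0) ∈ T → (∀ x ∈ T, ∀ y ∈ T, x + y ∈ T) → (∀ c : ℚ_[p], ‖c‖ ≤ 1 → ∀ x ∈ T, c • x ∈ T) →
  (∀ g, ∀ x ∈ T, (V g * x.1 * V g⁻¹, ρ g * x.2 * ρ g⁻¹) ∈ T) →
  (∀ x ∈ T, x.1 = 0 → tl x.2 = 0) →
  (∀ Y : Matrix (Fin 2) (Fin 2) F, Y.trace = 0 → Y ∈ Submodule.span F {y | ∃ x ∈ T, tl x.2 = y}) →
  ∀ i j, (fun g : G => ad0 (((algebraMap F Ω).mapMatrix : Matrix (Fin 2) (Fin 2) F →+*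
      Matrix (Fin 2) (Fin 2) Ω).toMonoidHom.comp ρ) g i j) ∈
    alg ((((algebraMap F Ω).comp (algebraMap ℚ_[p] F)).mapMatrix :
      Matrix n n ℚ_[p] →+* Matrix n n Ω).toMonoidHom.comp V)

/-- **Row CB** (the case `n = b`; from LG, RE, TP, AD, BD, TL, SP). `G` compact, `Φ g = (V g, ρ g)`,
`R` the lattice of LA, `T = TT`. If the `ℚ_p`-span of the `tl Y`, `(0, Y) ∈ T` contains all `tl Y`,
`(X, Y) ∈ T`, then for some `N` and all `g ∈ G` with `Dv N (Φ g - 1)` there is `h` with `V h = 1` and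
`ρ g = c ρ h`. Proof. `j₀` from RE. By BD (`E = M_2(F)`, the compact set `{tl Y | (X, Y) ∈ T}`, the
set `{tl Y | (0, Y) ∈ T}`) there is `k` such that for all `(X, Y) ∈ T` there is `(0, Y₁) ∈ T` with
`p^k tl Y = tl Y₁`. `N = j₀ + (k + j₀)`. Let `Dv N (Φ g - 1)`. RE (2): `Z = (X, Y) ∈ T` with
`IsLog (Φ g) (p^(k+j₀) Z)`. Take `(0, Y₁)` for it, RE (1): `h` with `IsLog (Φ h) (p^(j₀) (0, Y₁))`. The
first components: `IsLog (V h) 0`, so for all `i` `V h ^ (p^i) - 1` has entries of norm `≤ p^(-(2i+3))`; as `(1, ·)` has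
logarithm `0`, `V h = 1` by LG (3) (apply it in `B` to `Φ h` and to `(1, ρ h)`, both have the logarithm
`(0, p^(j₀) Y₁)`; here `p^(j₀) Y₁` is the logarithm of `ρ h` in the second component). The second
components: `p^(j₀+k) Y` and `p^(j₀) Y₁` have the same traceless part. AD applied in `B` to
`x = (1, ρ g)`, `y = (1, ρ h)` (their logarithms `(0, p^(j₀+k) Y)`, `(0, p^(j₀) Y₁)` differ by a central element, TL) gives
that `ρ g`, `ρ h` act in the same way by conjugation on `M_2(F)`, TL. -/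
def CB_stmt : Prop := ∀ (p : ℕ) [Fact p.Prime] (n F : Type) [Fintype n] [DecidableEq n]
  [NormedField F] [NormedAlgebra ℚ_[p] F] [FiniteDimensional ℚ_[p] F] (G : Type) [Group G]
  [TopologicalSpace G] [IsTopologicalGroup G] [CompactSpace G]
  (V : G →* Matrix n n ℚ_[p]) (ρ : G →* Matrix (Fin 2) (Fin 2) F),
  Continuous V → Continuous ρ →
  ∀ R : Subring (Matrix n n ℚ_[p] × Matrix (Fin 2) (Fin 2) F),
  (∀ x, x ∈ R ↔ Integral p x) → Lat p R → (∀ (c : ℚ_[p]), ‖c‖ ≤ 1 → ∀ x ∈ R, c • x ∈ R) →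
  (∀ g, Dv p R 2 ((V.prod ρ) g - 1)) →
  (∀ x ∈ TT p R (V.prod ρ), tl x.2 ∈
    Submodule.span ℚ_[p] {y | ∃ x ∈ TT p R (V.prod ρ), x.1 = 0 ∧ tl x.2 = y}) →
  ∃ N : ℕ, ∀ g : G, Dv p R N ((V.prod ρ) g - 1) →
    ∃ h : G, V h = 1 ∧ ∃ c : F, ρ g = c • ρ h

/-- **Row NZ** (`b ≠ 0`; from LG, AD, TL, TP). If `ρ g` is not scalar, there is `x ∈ TT` with `tl x.2 ≠ 0`.
Proof. LG (2): a logarithm `Z = (X, Y)` of `Φ g`, in `TT` by TP. If `tl Y = 0` then AD in `B` for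
`x = (1, ρ g)` with logarithm `(0, Y)` and `y = 1` with logarithm `0` gives that `ρ g` commutes with all
matrices, TL (last item with `y = y' = 1`). -/
def NZ_stmt : Prop := ∀ (p : ℕ) [Fact p.Prime] (n F : Type) [Fintype n] [DecidableEq n]
  [NormedField F] [NormedAlgebra ℚ_[p] F] [FiniteDimensional ℚ_[p] F] (G : Type) [Group G]
  (V : G →* Matrix n n ℚ_[p]) (ρ : G →* Matrix (Fin 2) (Fin 2) F),
  ∀ R : Subring (Matrix n n ℚ_[p] × Matrix (Fin 2) (Fin 2) F),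
  (∀ x, x ∈ R ↔ Integral p x) → Lat p R → (∀ (c : ℚ_[p]), ‖c‖ ≤ 1 → ∀ x ∈ R, c • x ∈ R) →
  (∀ g, Dv p R 2 ((V.prod ρ) g - 1)) → ∀ g : G, (∀ c : F, ρ g ≠ c • 1) →
  ∃ x ∈ TT p R (V.prod ρ), tl x.2 ≠ 0

/-- **Row FIN** (from LA, OG, LG, RE, TP, ID, AL, IR, TL, SP, CA, CB, NZ). Proof. `B`, `R` from LA, `Φ = V.prod ρ`,
`U` from OG with `k = 2`, `G = U` (a compact group, as it is closed). `T = TT (Φ restricted to U)`.
`b` = the `ℚ_p`-span of `{tl x.2 | x ∈ T}`, `n` = the `ℚ_p`-span of `{tl x.2 | x ∈ T, x.1 = 0}`. They are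
stable (TP (4), TL). `F`-stable subspaces: IR for `H = U` (finite index as `Γ` is compact). Some `ρ g`,
`g ∈ U`, is not scalar (otherwise the line `F E_12` is stable, contradicting IR). So `b ≠ 0` (NZ).
Ideals: for `S ≤ b` stable, `x ∈ T`, `W ∈ S`: ID in `B` for the subspace `{(0, W) | W ∈ S}` gives
`(0, x.2 W - W x.2) ∈` it, and `x.2 W - W x.2 = tl x.2 W - W tl x.2` (TL); extend to `b` by linearity. The
`F`-span of `b` is stable and nonzero, so it contains all matrices of trace `0`. If `n = 0`: CA for the group `U`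
gives the first alternative. If `n ≠ 0`: AL gives `n = b`, CB gives `N`, OG with `k = N` (for `U`, or for `Γ`
intersected with `U`) gives an open subgroup as in the second alternative. -/
def FIN_stmt : Prop := ∀ (p : ℕ) [Fact p.Prime] (Γ : Type) [Group Γ] [TopologicalSpace Γ]
  [IsTopologicalGroup Γ] [CompactSpace Γ] (n F Ω : Type) [Fintype n] [DecidableEq n]
  [NormedField F] [NormedAlgebra ℚ_[p] F] [FiniteDimensional ℚ_[p] F]
  [Field Ω] [IsAlgClosed Ω] [Algebra F Ω]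
  (V : Γ →* Matrix n n ℚ_[p]) (ρ : Γ →* Matrix (Fin 2) (Fin 2) F),
  Continuous V → Continuous ρ →
  SI (((algebraMap F Ω).mapMatrix : Matrix (Fin 2) (Fin 2) F →+*
      Matrix (Fin 2) (Fin 2) Ω).toMonoidHom.comp ρ) →
  (∃ U : Subgroup Γ, IsOpen (U : Set Γ) ∧
    ∀ i j, (fun g : U => ad0 ((((algebraMap F Ω).mapMatrix : Matrix (Fin 2) (Fin 2) F →+*
        Matrix (Fin 2) (Fin 2) Ω).toMonoidHom.comp ρ).comp U.subtype) g i j) ∈
      alg (((((algebraMap F Ω).comp (algebraMap ℚ_[p] F)).mapMatrix :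
        Matrix n n ℚ_[p] →+* Matrix n n Ω).toMonoidHom.comp V).comp U.subtype)) ∨
  (∃ U : Subgroup Γ, IsOpen (U : Set Γ) ∧ ∀ g ∈ U, ∃ h : Γ, V h = 1 ∧ ∃ c : F, ρ g = c • ρ h)

end Pool.Agent.FLD
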