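import Pool.Agent.helper55.FLD.Defs

/-!
# FLD: topological basics for a compact open subring
-/

namespace Pool.Agent.FLD

open Matrix Topology Filter

variable {p : ℕ} [Fact p.Prime] {B : Type} [Ring B] [Algebra ℚ_[p] B] {R : Subring B}
  [TopologicalSpace B] [IsTopologicalRing B] [ContinuousSMul ℚ_[p] B] [T2Space B]

theorem setOf_dv (k : ℕ) :
    {x : B | Dv p R k x} = (fun x : B => ((p : ℚ_[p]) ^ k) • x) '' (R : Set B) := by
  ext x
  constructor
  · rintro ⟨r, hr, rfl⟩
    exact ⟨r, hr, rfl⟩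
  · rintro ⟨r, hr, rfl⟩
    exact ⟨r, hr, rfl⟩

theorem Lat.isCompact_dv (hL : Lat p R) (k : ℕ) : IsCompact {x : B | Dv p R k x} := by
  rw [setOf_dv]
  exact hL.compact.image (continuous_const_smul _)

theorem Lat.isClosed_dv (hL : Lat p R) (k : ℕ) : IsClosed {x : B | Dv p R k x} :=
  (hL.isCompact_dv k).isClosed

theorem Lat.isOpen_dv (hL : Lat p R) (k : ℕ) : IsOpen {x : B | Dv p R k x} := by
  rw [setOf_dv]
  exact (isOpenMap_smul₀ (ppow_ne k)) _ hL.opn

/-- A closed set contains the points which it approximates modulo all `p ^ i R`. -/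
theorem Lat.mem_of_approx (hL : Lat p R) {S : Set B} (hS : IsClosed S) {x : B}
    (h : ∀ i : ℕ, ∃ s ∈ S, Dv p R i (x - s)) : x ∈ S := by
  let K : ℕ → Set B := fun i => S ∩ {s | Dv p R i (x - s)}
  have hc : ∀ i, IsClosed {s : B | Dv p R i (x - s)} := fun i =>
    (hL.isClosed_dv i).preimage (continuous_const.sub continuous_id)
  have hK : ∀ i, IsClosed (K i) := fun i => hS.inter (hc i)
  have h0 : IsCompact (K 0) := by
    have h1 : IsCompact ((fun r : B => x - r) '' {r : B | Dv p R 0 r}) :=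
      (hL.isCompact_dv 0).image (continuous_const.sub continuous_id)
    refine h1.of_isClosed_subset (hK 0) ?_
    rintro s ⟨_, hs⟩
    exact ⟨x - s, hs, by simp⟩
  obtain ⟨s, hs⟩ := IsCompact.nonempty_iInter_of_sequence_nonempty_isCompact_isClosed K
    (fun i s hs => ⟨hs.1, hs.2.mono (Nat.le_succ i)⟩)
    (fun i => by
      obtain ⟨s, h1, h2⟩ := h i
      exact ⟨s, h1, h2⟩) h0 hK
  rw [Set.mem_iInter] at hs
  have : x - s = 0 := hL.sep _ fun k => (hs k).2
  rw [sub_eq_zero] at this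
  rw [this]
  exact (hs 0).1

end Pool.Agent.FLD
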