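import Mathlib

/-!
# FLD: small p-adic Lie theory, definitions and basic facts

`B` is a `ℚ_p`-algebra (for the application `M_n(ℚ_p) × M_2(F)`), `R` a subring (integral elements).
`Dv p R k x` means `x ∈ p^k R`.
-/

namespace Pool.Agent.FLD

open Matrix Topology Filter

section defs

variable (p : ℕ) [Fact p.Prime] {B : Type} [Ring B] [Algebra ℚ_[p] B] (R : Subring B)

/-- `x ∈ p ^ k R` -/
def Dv (k : ℕ) (x : B) : Prop := ∃ r ∈ R, x = ((p : ℚ_[p]) ^ k) • r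

/-- `Z` is the logarithm of `x` (for `x ∈ 1 + p² R`): `x ^ (p ^ i) ≡ 1 + p ^ i Z mod p ^ (2 i + 3)`
for all `i`. -/
def IsLog (x Z : B) : Prop :=
  ∀ i : ℕ, Dv p R (2 * i + 3) (x ^ p ^ i - 1 - ((p : ℚ_[p]) ^ i) • Z)

/-- `R` is a compact open subring of `B`; `sep` and `abs` are consequences which we keep as
fields. -/
structure Lat [TopologicalSpace B] : Prop where
  compact : IsCompact (R : Set B)
  opn : IsOpen (R : Set B)
  sep : ∀ x : B, (∀ k : ℕ, Dv p R k x) → x = 0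
  abs : ∀ x : B, ∃ k : ℕ, ((p : ℚ_[p]) ^ k) • x ∈ R

/-- The tangent vectors of the homomorphism `Φ` (integral elements of the Lie algebra of its
image): `Z` such that for all `i` some `Φ g` is `1 + p ^ i Z` modulo `p ^ (2 i)`. -/
def TT {G : Type} [Group G] (Φ : G →* B) : Set B :=
  {Z | Z ∈ R ∧ ∀ i : ℕ, 2 ≤ i → ∃ g : G, Dv p R (2 * i) (Φ g - 1 - ((p : ℚ_[p]) ^ i) • Z)}

end defs

section basic

variable {p : ℕ} [Fact p.Prime] {B : Type} [Ring B] [Algebra ℚ_[p] B] {R : Subring B}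

theorem pne : (p : ℚ_[p]) ≠ 0 := by
  exact_mod_cast (Fact.out : p.Prime).ne_zero

theorem ppow_ne (k : ℕ) : (p : ℚ_[p]) ^ k ≠ 0 := pow_ne_zero k pne

theorem ppow_smul_mem {x : B} (hx : x ∈ R) (k : ℕ) : ((p : ℚ_[p]) ^ k) • x ∈ R := by
  have : ((p : ℚ_[p]) ^ k) • x = (p ^ k : ℕ) • x := by
    rw [← Nat.cast_pow, Nat.cast_smul_eq_nsmul]
  rw [this]
  exact R.nsmul_mem hx _

theorem Dv.mem {k : ℕ} {x : B} (h : Dv p R k x) : x ∈ R := by
  obtain ⟨r, hr, rfl⟩ := h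
  exact ppow_smul_mem hr k

theorem dv_zero_iff {x : B} : Dv p R 0 x ↔ x ∈ R := by
  constructor
  · exact Dv.mem
  · intro h
    exact ⟨x, h, by simp⟩

theorem Dv.zero (k : ℕ) : Dv p R k (0 : B) := ⟨0, R.zero_mem, by simp⟩

theorem Dv.add {k : ℕ} {x y : B} (hx : Dv p R k x) (hy : Dv p R k y) : Dv p R k (x + y) := by
  obtain ⟨r, hr, rfl⟩ := hx
  obtain ⟨s, hs, rfl⟩ := hy
  exact ⟨r + s, R.add_mem hr hs, by rw [smul_add]⟩

theorem Dv.neg {k : ℕ} {x : B} (hx : Dv p R k x) : Dv p R k (-x) := by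
  obtain ⟨r, hr, rfl⟩ := hx
  exact ⟨-r, R.neg_mem hr, by rw [smul_neg]⟩

theorem Dv.sub {k : ℕ} {x y : B} (hx : Dv p R k x) (hy : Dv p R k y) : Dv p R k (x - y) := by
  rw [sub_eq_add_neg]
  exact hx.add hy.neg

theorem Dv.symm {k : ℕ} {x y : B} (h : Dv p R k (x - y)) : Dv p R k (y - x) := by
  have := h.neg
  rwa [neg_sub] at this

theorem Dv.trans {k : ℕ} {x y z : B} (h : Dv p R k (x - y)) (h' : Dv p R k (y - z)) :
    Dv p R k (x - z) := by
  have := h.add h'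
  rwa [sub_add_sub_cancel] at this

theorem Dv.mul {j k : ℕ} {x y : B} (hx : Dv p R j x) (hy : Dv p R k y) :
    Dv p R (j + k) (x * y) := by
  obtain ⟨r, hr, rfl⟩ := hx
  obtain ⟨s, hs, rfl⟩ := hy
  refine ⟨r * s, R.mul_mem hr hs, ?_⟩
  rw [smul_mul_assoc, mul_smul_comm, smul_smul, pow_add]

theorem Dv.mul_left {k : ℕ} {x y : B} (hx : x ∈ R) (hy : Dv p R k y) : Dv p R k (x * y) := by
  simpa using (dv_zero_iff.mpr hx).mul hy

theorem Dv.mul_right {k : ℕ} {x y : B} (hx : Dv p R k x) (hy : y ∈ R) : Dv p R k (x * y) := by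
  simpa using hx.mul (dv_zero_iff.mpr hy)

theorem Dv.mono {j k : ℕ} {x : B} (hx : Dv p R k x) (h : j ≤ k) : Dv p R j x := by
  obtain ⟨r, hr, rfl⟩ := hx
  refine ⟨((p : ℚ_[p]) ^ (k - j)) • r, ppow_smul_mem hr _, ?_⟩
  rw [smul_smul, ← pow_add, Nat.add_sub_cancel' h]

theorem Dv.smul {k : ℕ} {x : B} (i : ℕ) (hx : Dv p R k x) :
    Dv p R (k + i) (((p : ℚ_[p]) ^ i) • x) := by
  obtain ⟨r, hr, rfl⟩ := hx
  exact ⟨r, hr, by rw [smul_smul, ← pow_add, add_comm i k]⟩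

theorem Dv.of_smul {k : ℕ} {x : B} (i : ℕ) (hx : Dv p R (k + i) (((p : ℚ_[p]) ^ i) • x)) :
    Dv p R k x := by
  obtain ⟨r, hr, h⟩ := hx
  refine ⟨r, hr, ?_⟩
  rw [add_comm, pow_add, ← smul_smul] at h
  exact smul_right_injective B (ppow_ne i) h

theorem dv_smul_iff {k : ℕ} {x : B} (i : ℕ) :
    Dv p R (k + i) (((p : ℚ_[p]) ^ i) • x) ↔ Dv p R k x := ⟨Dv.of_smul i, Dv.smul i⟩

theorem Dv.nsmul {k : ℕ} {x : B} (n : ℕ) (hx : Dv p R k x) : Dv p R k (n • x) := by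
  obtain ⟨r, hr, rfl⟩ := hx
  exact ⟨n • r, R.nsmul_mem hr n, by rw [smul_comm]⟩

/-- an element of `1 + p ^ k R` is in `R` -/
theorem mem_of_dv_sub_one {k : ℕ} {x : B} (h : Dv p R k (x - 1)) : x ∈ R := by
  have := R.add_mem h.mem R.one_mem
  simpa using this

theorem Dv.mul_one_sub {j : ℕ} {x y : B} (hx : Dv p R j (x - 1)) (hy : Dv p R j (y - 1)) :
    Dv p R j (x * y - 1) := by
  have h : x * y - 1 = (x - 1) * y + (y - 1) := by noncomm_ring
  rw [h]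
  exact (hx.mul_right (mem_of_dv_sub_one hy)).add hy

theorem Dv.pow_sub_one {j : ℕ} {x : B} (hx : Dv p R j (x - 1)) (n : ℕ) :
    Dv p R j (x ^ n - 1) := by
  induction n with
  | zero => simpa using Dv.zero j
  | succ n ih =>
    rw [pow_succ]
    exact ih.mul_one_sub hx

/-- the inverse of an element of `1 + p ^ k R` with inverse in `R` -/
theorem Dv.inv_sub_one {j : ℕ} {x y : B} (hx : Dv p R j (x - 1)) (hy : y ∈ R) (h : x * y = 1) :
    Dv p R j (y - 1) := by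
  have h1 : y - 1 = -((x - 1) * y) := by
    rw [sub_mul, h]
    noncomm_ring
  rw [h1]
  exact (hx.mul_right hy).neg

end basic

end Pool.Agent.FLD
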