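import Pool.Agent.helper55.FLD.Spec

/-!
# FLD, row FIN: the linear disjointness criterion
-/

namespace Pool.Agent.FLD

open Matrix Topology Filter Pool.Agent.GO Pool.Agent.AR

theorem FIN_smul_real {F : Type} [NormedField F] {p : ℕ} [Fact p.Prime] [NormedAlgebra ℚ_[p] F]
    (h : TL_stmt) [CharZero F] (c : ℚ_[p]) (Y : Matrix (Fin 2) (Fin 2) F) :
    tl (c • Y) = c • tl Y := by
  obtain ⟨_, _, _, h4, _⟩ := h F
  have e : ∀ Z : Matrix (Fin 2) (Fin 2) F, c • Z = (algebraMap ℚ_[p] F c) • Z := by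
    intro Z
    ext i j
    simp [Algebra.smul_def]
  rw [e, h4, ← e]

/-- the main argument for a group with small image -/
theorem FIN_aux (h3 : TP_stmt) (h4 : ID_stmt) (h5 : AL_stmt) (h7 : TL_stmt) (h8 : CA_stmt)
    (h9 : CB_stmt) (h10 : NZ_stmt)
    (p : ℕ) [Fact p.Prime] (G : Type) [Group G] [TopologicalSpace G]
    [IsTopologicalGroup G] [CompactSpace G] (n F Ω : Type) [Fintype n] [DecidableEq n]
    [NormedField F] [NormedAlgebra ℚ_[p] F] [FiniteDimensional ℚ_[p] F]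
    [Field Ω] [CharZero Ω] [Algebra F Ω] [CharZero F]
    (V : G →* Matrix n n ℚ_[p]) (ρ : G →* Matrix (Fin 2) (Fin 2) F)
    (hV : Continuous V) (hρ : Continuous ρ)
    (R : Subring (Matrix n n ℚ_[p] × Matrix (Fin 2) (Fin 2) F))
    (hR : ∀ x, x ∈ R ↔ Integral p x) (hL : Lat p R)
    (hRs : ∀ (c : ℚ_[p]), ‖c‖ ≤ 1 → ∀ x ∈ R, c • x ∈ R)
    (hsm : ∀ g, Dv p R 2 ((V.prod ρ) g - 1))
    (irr : ∀ N : Submodule F (Matrix (Fin 2) (Fin 2) F), N ≠ ⊥ → (∀ Y ∈ N, Y.trace = 0) →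
      (∀ g, ∀ Y ∈ N, ρ g * Y * ρ g⁻¹ ∈ N) →
      ∀ Y : Matrix (Fin 2) (Fin 2) F, Y.trace = 0 → Y ∈ N) :
    (∀ i j, (fun g : G => ad0 (((algebraMap F Ω).mapMatrix : Matrix (Fin 2) (Fin 2) F →+*
      Matrix (Fin 2) (Fin 2) Ω).toMonoidHom.comp ρ) g i j) ∈
    alg ((((algebraMap F Ω).comp (algebraMap ℚ_[p] F)).mapMatrix :
      Matrix n n ℚ_[p] →+* Matrix n n Ω).toMonoidHom.comp V)) ∨
    ∃ N : ℕ, ∀ g : G, Dv p R N ((V.prod ρ) g - 1) →
      ∃ h : G, V h = 1 ∧ ∃ c : F, ρ g = c • ρ h := by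
  obtain ⟨t1, t2, t3, t4, t5, t6, t7, t8⟩ := h7 F
  obtain ⟨p1, p2, p3, p4, p5⟩ := h3 p _ R hL hRs G (V.prod ρ) hsm
  set T := TT p R (V.prod ρ) with hT
  have hzero : (0 : Matrix n n ℚ_[p] × Matrix (Fin 2) (Fin 2) F) ∈ T :=
    ⟨R.zero_mem, fun i _ => ⟨1, by
      rw [map_one, sub_self, smul_zero, sub_zero]
      exact Dv.zero _⟩⟩
  have htlc : ∀ (c : ℚ_[p]) (Y : Matrix (Fin 2) (Fin 2) F), tl (c • Y) = c • tl Y :=
    fun c Y => FIN_smul_real h7 c Y
  -- the two subspaces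
  set b : Submodule ℚ_[p] (Matrix (Fin 2) (Fin 2) F) :=
    Submodule.span ℚ_[p] {y | ∃ x ∈ T, tl x.2 = y} with hb
  set m : Submodule ℚ_[p] (Matrix (Fin 2) (Fin 2) F) :=
    Submodule.span ℚ_[p] {y | ∃ x ∈ T, x.1 = 0 ∧ tl x.2 = y} with hm
  have hmb : m ≤ b := Submodule.span_mono fun y hy => by
    obtain ⟨x, hx, _, h⟩ := hy
    exact ⟨x, hx, h⟩
  -- conjugation as a linear map
  let cj : G → Matrix (Fin 2) (Fin 2) F →ₗ[ℚ_[p]] Matrix (Fin 2) (Fin 2) F := fun g =>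
    (LinearMap.mulRight ℚ_[p] (ρ g⁻¹)) ∘ₗ (LinearMap.mulLeft ℚ_[p] (ρ g))
  have hcj : ∀ g Y, cj g Y = ρ g * Y * ρ g⁻¹ := fun g Y => rfl
  have hconj : ∀ g, ∀ x ∈ T, (V g * x.1 * V g⁻¹, ρ g * x.2 * ρ g⁻¹) ∈ T := by
    intro g x hx
    exact p4 g x hx
  have hbst : ∀ g, ∀ Y ∈ b, ρ g * Y * ρ g⁻¹ ∈ b := by
    intro g Y hY
    have : b ≤ b.comap (cj g) := by
      rw [hb, Submodule.span_le]
      rintro y ⟨x, hx, rfl⟩
      show cj g (tl x.2) ∈ b
      rw [hcj, ← t5]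
      exact Submodule.subset_span ⟨_, hconj g x hx, rfl⟩
    exact this hY
  have hmst : ∀ g, ∀ Y ∈ m, ρ g * Y * ρ g⁻¹ ∈ m := by
    intro g Y hY
    have : m ≤ m.comap (cj g) := by
      rw [hm, Submodule.span_le]
      rintro y ⟨x, hx, hx1, rfl⟩
      show cj g (tl x.2) ∈ m
      rw [hcj, ← t5]
      refine Submodule.subset_span ⟨_, hconj g x hx, ?_, rfl⟩
      show V g * x.1 * V g⁻¹ = 0
      rw [hx1]
      simp
    exact this hY
  have hbtr : ∀ Y ∈ b, Y.trace = 0 := by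
    intro Y hY
    rw [hb] at hY
    induction hY using Submodule.span_induction with
    | mem y hy =>
      obtain ⟨x, _, rfl⟩ := hy
      exact t1 _
    | zero => simp
    | add y z _ _ hy hz => rw [Matrix.trace_add, hy, hz, add_zero]
    | smul c y _ hy => rw [Matrix.trace_smul, hy, smul_zero]
  -- `b` is not zero
  obtain ⟨g₀, hg₀⟩ : ∃ g : G, ∀ c : F, ρ g ≠ c • 1 := by
    by_contra hcon
    push Not at hcon
    have hN := irr (Submodule.span F {!![0, 1; 0, 0]}) (by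
      intro h0
      rw [Submodule.span_singleton_eq_bot] at h0
      have := congrFun (congrFun h0 0) 1
      simp at this) (by
      intro Y hY
      obtain ⟨c, rfl⟩ := Submodule.mem_span_singleton.mp hY
      simp [Matrix.trace_fin_two]) (by
      intro g Y hY
      obtain ⟨c, hc⟩ := hcon g
      have e : ρ g * Y * ρ g⁻¹ = Y := by
        have h1 : ρ g * ρ g⁻¹ = 1 := by rw [← map_mul, mul_inv_cancel, map_one]
        rw [hc] at h1 ⊢
        rw [smul_mul_assoc, one_mul] at h1 ⊢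
        rw [smul_mul_assoc, ← mul_smul_comm, h1, mul_one]
      rw [e]
      exact hY) !![0, 0; 1, 0] (by simp [Matrix.trace_fin_two])
    obtain ⟨c, hc⟩ := Submodule.mem_span_singleton.mp hN
    have := congrFun (congrFun hc 1) 0
    simp at this
  obtain ⟨x₀, hx₀, hx₀'⟩ := h10 p n F G V ρ R hR hL hRs hsm g₀ hg₀
  -- the `F`-span of `b`
  have hspan : ∀ Y : Matrix (Fin 2) (Fin 2) F, Y.trace = 0 →
      Y ∈ Submodule.span F {y | ∃ x ∈ T, tl x.2 = y} := by
    apply irr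
    · intro h0
      apply hx₀'
      have : tl x₀.2 ∈ Submodule.span F {y | ∃ x ∈ T, tl x.2 = y} :=
        Submodule.subset_span ⟨x₀, hx₀, rfl⟩
      rw [h0] at this
      exact this
    · intro Y hY
      induction hY using Submodule.span_induction with
      | mem y hy =>
        obtain ⟨x, _, rfl⟩ := hy
        exact t1 _
      | zero => simp
      | add y z _ _ hy hz => rw [Matrix.trace_add, hy, hz, add_zero]
      | smul c y _ hy => rw [Matrix.trace_smul, hy, smul_zero]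
    · intro g Y hY
      induction hY using Submodule.span_induction with
      | mem y hy =>
        obtain ⟨x, hx, rfl⟩ := hy
        rw [← t5]
        exact Submodule.subset_span ⟨_, hconj g x hx, rfl⟩
      | zero => simp
      | add y z _ _ hy hz =>
        rw [mul_add, add_mul]
        exact Submodule.add_mem _ hy hz
      | smul c y _ hy =>
        rw [mul_smul_comm, smul_mul_assoc]
        exact Submodule.smul_mem _ _ hy
  by_cases hm0 : m = ⊥
  · left
    apply h8 p n F Ω G V ρ T hzero p2 p3 hconj ?_ hspan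
    intro x hx hx1
    have : tl x.2 ∈ m := Submodule.subset_span ⟨x, hx, hx1, rfl⟩
    rw [hm0] at this
    exact this
  · right
    haveI : FiniteDimensional ℚ_[p] (Matrix (Fin 2) (Fin 2) F) := inferInstance
    have hideal : ∀ S : Submodule ℚ_[p] (Matrix (Fin 2) (Fin 2) F), S ≤ b →
        (∀ g, ∀ Y ∈ S, ρ g * Y * ρ g⁻¹ ∈ S) → ∀ Y ∈ b, ∀ W ∈ S, Y * W - W * Y ∈ S := by
      intro S _ hS Y hY W hW
      rw [hb] at hY
      induction hY using Submodule.span_induction with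
      | mem y hy =>
        obtain ⟨x, hx, rfl⟩ := hy
        rw [← t6]
        let S' : Submodule ℚ_[p] (Matrix n n ℚ_[p] × Matrix (Fin 2) (Fin 2) F) :=
          (⊥ : Submodule ℚ_[p] (Matrix n n ℚ_[p])).prod S
        have h11 := h4 p _ R hL G (V.prod ρ) hsm S' (by
          rintro g ⟨w1, w2⟩ hw
          obtain ⟨hw1, hw2⟩ := Submodule.mem_prod.mp hw
          have hw1' : w1 = 0 := hw1
          refine Submodule.mem_prod.mpr ⟨?_, hS g w2 hw2⟩
          show V g * w1 * V g⁻¹ ∈ (⊥ : Submodule ℚ_[p] (Matrix n n ℚ_[p]))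
          rw [hw1']
          simp) x hx (0, W) (Submodule.mem_prod.mpr ⟨Submodule.zero_mem _, hW⟩)
        exact (Submodule.mem_prod.mp h11).2
      | zero => simp
      | add y z _ _ hy hz =>
        have e : (y + z) * W - W * (y + z) = (y * W - W * y) + (z * W - W * z) := by
          noncomm_ring
        rw [e]
        exact S.add_mem hy hz
      | smul c y _ hy =>
        have e : (c • y) * W - W * (c • y) = c • (y * W - W * y) := by
          rw [smul_mul_assoc, mul_smul_comm, smul_sub]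
        rw [e]
        exact S.smul_mem c hy
    have hmeq : m = b := h5 ℚ_[p] F G ρ b m hbtr hmb hm0 hbst hmst hideal irr
    apply h9 p n F G V ρ hV hρ R hR hL hRs hsm
    intro x hx
    have : tl x.2 ∈ b := Submodule.subset_span ⟨x, hx, rfl⟩
    rw [← hmeq] at this
    exact this

theorem FIN (h1 : LA_stmt) (h2 : OG_stmt) (h3 : TP_stmt) (h4 : ID_stmt) (h5 : AL_stmt)
    (h6 : IR_stmt) (h7 : TL_stmt) (h8 : CA_stmt) (h9 : CB_stmt) (h10 : NZ_stmt) : FIN_stmt := by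
  intro p _ Γ _ _ _ _ n F Ω _ _ _ _ _ _ _ _ V ρ hV hρ hSI
  haveI : CharZero F := charZero_of_injective_algebraMap (algebraMap ℚ_[p] F).injective
  haveI : CharZero Ω := charZero_of_injective_algebraMap (algebraMap F Ω).injective
  obtain ⟨R, hR, hL, hRs⟩ := h1 p n F
  have hΦ : Continuous (V.prod ρ) := hV.prodMk hρ
  obtain ⟨U, hU, hU2⟩ := h2 p _ R hL Γ (V.prod ρ) hΦ 2
  haveI : CompactSpace U := isCompact_iff_compactSpace.mp (U.isClosed_of_isOpen hU).isCompact
  haveI hUf : U.FiniteIndex := by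
    haveI := Subgroup.quotient_finite_of_isOpen U hU
    exact Subgroup.finiteIndex_of_finite_quotient
  have irr := h6 F Ω Γ ρ hSI U hUf
  have key := FIN_aux h3 h4 h5 h7 h8 h9 h10 p U n F Ω (V.comp U.subtype) (ρ.comp U.subtype)
    (hV.comp continuous_subtype_val) (hρ.comp continuous_subtype_val) R hR hL hRs
    (fun g => hU2 g.1 g.2) (fun N hN1 hN2 hN3 =>
      irr N hN1 hN2 (fun g hg Y hY => hN3 ⟨g, hg⟩ Y hY))
  rcases key with key | ⟨N, hN⟩
  · left
    exact ⟨U, hU, key⟩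
  · right
    obtain ⟨U', hU', hU2'⟩ := h2 p _ R hL Γ (V.prod ρ) hΦ N
    refine ⟨U ⊓ U', hU.inter hU', ?_⟩
    rintro g ⟨hg1, hg2⟩
    obtain ⟨h, hh1, c, hc⟩ := hN ⟨g, hg1⟩ (hU2' g hg2)
    exact ⟨h.1, hh1, c, hc⟩

end Pool.Agent.FLD
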